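import Pool.Agent.MP_09973c_nt.H58.SpecA

/-!
Local estimates: ratios of large chains, the window lemma and the direction lemma.
-/

set_option autoImplicit false

namespace Pool.Agent.MP_09973c_nt.H41

open Pool.Agent.MP_09973c_nt.H58

section Kit

variable {F : Type} [NormedField F]

theorem norm_pow_sub {u v : F} {M : ℝ} (hu : ‖u‖ ≤ M) (hv : ‖v‖ ≤ M) (n : ℕ) :
    ‖u ^ n - v ^ n‖ * M ≤ n * M ^ n * ‖u - v‖ := by
  have hM : 0 ≤ M := (norm_nonneg u).trans hu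
  induction n with
  | zero => simp
  | succ n ih =>
    have e : u ^ (n + 1) - v ^ (n + 1) = u * (u ^ n - v ^ n) + v ^ n * (u - v) := by ring
    have h1 : ‖u ^ (n + 1) - v ^ (n + 1)‖ ≤ M * ‖u ^ n - v ^ n‖ + M ^ n * ‖u - v‖ := by
      rw [e]
      refine (norm_add_le _ _).trans ?_
      rw [norm_mul, norm_mul, norm_pow]
      gcongr
    calc ‖u ^ (n + 1) - v ^ (n + 1)‖ * M
        ≤ (M * ‖u ^ n - v ^ n‖ + M ^ n * ‖u - v‖) * M := by gcongr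
      _ = M * (‖u ^ n - v ^ n‖ * M) + M ^ (n + 1) * ‖u - v‖ := by ring
      _ ≤ M * (n * M ^ n * ‖u - v‖) + M ^ (n + 1) * ‖u - v‖ := by gcongr
      _ = _ := by push_cast; ring

theorem norm_pow_sub_one {u v : F} (hu : ‖u‖ = 1) (hv : ‖v‖ = 1) (n : ℕ) :
    ‖u ^ n - v ^ n‖ ≤ n * ‖u - v‖ := by
  simpa using norm_pow_sub hu.le hv.le n

/-- The error after taking the `p`-th power. -/
theorem pow_err {p q : ℕ} (hp : 0 < p) (hpq : p < q) {X X' ζ : F} {C : ℝ} (hζ : ‖ζ‖ = 1)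
    (h : ‖X' - ζ * X‖ * ‖X‖ ^ (q - 1) ≤ C) (h1 : 1 ≤ ‖X‖) (hC : C ≤ ‖X‖) :
    ‖X' ^ p - ζ ^ p * X ^ p‖ * ‖X‖ ≤ p * 2 ^ p * C := by
  have he := norm_nonneg (X' - ζ * X)
  have h2 : ‖X' - ζ * X‖ * ‖X‖ ^ p ≤ C :=
    (mul_le_mul_of_nonneg_left (pow_le_pow_right₀ h1 (by omega)) he).trans h
  have h3 : ‖X' - ζ * X‖ * ‖X‖ ≤ C :=
    (mul_le_mul_of_nonneg_left (le_self_pow₀ h1 hp.ne') he).trans h2
  have h4 : ‖X' - ζ * X‖ ≤ 1 := by
    by_contra hh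
    nlinarith
  have h5 : ‖ζ * X‖ = ‖X‖ := by rw [norm_mul, hζ, one_mul]
  have h6 : ‖X'‖ ≤ 2 * ‖X‖ := by
    have := norm_add_le (X' - ζ * X) (ζ * X)
    rw [sub_add_cancel, h5] at this
    linarith
  have h7 := norm_pow_sub h6 (v := ζ * X) (by rw [h5]; linarith) p
  rw [mul_pow, mul_pow] at h7
  have h8 : (p : ℝ) * (2 ^ p * ‖X‖ ^ p) * ‖X' - ζ * X‖ ≤ p * 2 ^ p * C := by
    calc (p : ℝ) * (2 ^ p * ‖X‖ ^ p) * ‖X' - ζ * X‖
        = p * 2 ^ p * (‖X' - ζ * X‖ * ‖X‖ ^ p) := by ring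
      _ ≤ _ := by gcongr
  nlinarith [norm_nonneg (X' ^ p - ζ ^ p * X ^ p)]

theorem lp_le_norm {x : F} (h : 0 < lp x) : lp x ≤ ‖x‖ := by
  rw [norm_eq_exp_lp h]
  linarith [Real.add_one_le_exp (lp x)]

theorem norm_le_of_lp {x y : F} (h : 0 < lp y) (hxy : lp x ≤ lp y) : ‖x‖ ≤ ‖y‖ := by
  rw [norm_eq_exp_lp h]
  exact (norm_le_exp_lp x).trans (Real.exp_le_exp.2 hxy)

/-- One step back along a chain does not decrease a large size. -/
theorem lp_back {p q : ℕ} (hp : 0 < p) (hpq : p < q) {c x y : F} {Ca : ℝ} (hc : ‖c‖ ≤ Ca)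
    (h : x ^ p + c = y ^ q) (hy : Real.log (1 + Ca) ≤ lp y) : lp y ≤ lp x := by
  have h1 := abs_le.1 (lp_step hc h)
  have hq : (p : ℝ) + 1 ≤ q := by exact_mod_cast hpq
  have hp' : (0 : ℝ) < p := by exact_mod_cast hp
  have h2 := lp_nonneg y
  by_contra hh
  nlinarith

theorem lp_anti {p q n : ℕ} (hp : 0 < p) (hpq : p < q) {c : F} {Ca : ℝ} (hc : ‖c‖ ≤ Ca)
    {x : ℕ → F} (hx : Fwd p q c n x) (hn : Real.log (1 + Ca) ≤ lp (x n)) :
    ∀ i ≤ n, lp (x n) ≤ lp (x i) := by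
  intro i hi
  induction hi using Nat.decreasingInduction with
  | self => exact le_rfl
  | of_succ k hk ih => exact ih.trans (lp_back hp hpq hc (hx k hk) (hn.trans ih))

theorem Ratio.mono {p q n : ℕ} {C C' : ℝ} {x x' ζ : ℕ → F} (h : Ratio p q n C x x' ζ)
    (hC : C ≤ C') : Ratio p q n C' x x' ζ :=
  ⟨h.1, h.2.1, fun i hi => (h.2.2 i hi).trans hC⟩

end Kit

theorem w2 : W2Stmt := by
  intro p q Ca hp hpq _
  have hq : 0 < q := by omega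
  obtain ⟨K, hK⟩ : ∃ K : ℝ, K = (4 * (q : ℝ) ^ 3) ^ (q - 1) := ⟨_, rfl⟩
  have hK1 : 1 ≤ K := by
    have : (1 : ℝ) ≤ (q : ℝ) ^ 3 := one_le_pow₀ (by exact_mod_cast hq)
    rw [hK]; exact one_le_pow₀ (by linarith)
  obtain ⟨C, hC⟩ : ∃ C : ℝ, C = K * (1 + 2 * |Ca|) := ⟨_, rfl⟩
  have hC1 : 1 ≤ C := by rw [hC]; nlinarith [abs_nonneg Ca]
  have hP : 0 ≤ (p : ℝ) * 2 ^ p * C := by positivity
  have hL := abs_nonneg (Real.log (1 + Ca))
  refine ⟨C + p * 2 ^ p * C + |Real.log (1 + Ca)|, C, by linarith, hC1, ?_⟩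
  intro F _ _ _ hF a b n x x' ha hb hx hx' h0 hA
  have hbig : ∀ i ≤ n, C + p * 2 ^ p * C ≤ ‖x i‖ := fun i hi => by
    have h1 := lp_anti (by omega) hpq ha hx (by linarith [le_abs_self (Real.log (1 + Ca))]) i hi
    have h2 := lp_le_norm (x := x i) (by linarith)
    linarith
  suffices h : ∀ m ≤ n, ∃ ζ : ℕ → F, Ratio p q m C x x' ζ from h n le_rfl
  intro m
  induction m with
  | zero =>
    intro _
    obtain ⟨ω, h1, h2⟩ := exists_mul_of_pow_eq hq h0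
    refine ⟨fun _ => ω, fun i hi => ?_, fun i hi => absurd hi (by omega), fun i hi => ?_⟩
    · rw [Nat.le_zero.1 hi, zero_add, pow_one, h1]
    · rw [Nat.le_zero.1 hi, h2, sub_self, norm_zero, zero_mul]; linarith
  | succ m ih =>
    intro hm
    obtain ⟨ζ, z1, z2, z3⟩ := ih (by omega)
    have n1 : ‖ζ m‖ = 1 := norm_root (pow_pos hq _) (z1 m le_rfl)
    have b1 := hbig m (by omega)
    have e1 := pow_err (by omega) hpq n1 (z3 m le_rfl) (by linarith) (by linarith)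
    have e2 : ‖x' m ^ p - ζ m ^ p * x m ^ p‖ ≤ 1 := by
      by_contra hh
      nlinarith
    obtain ⟨η, hη⟩ := IsAlgClosed.exists_pow_nat_eq (ζ m ^ p) hq
    obtain ⟨ω, hω, e3⟩ := rt_close hF hq (x' (m + 1)) (η * x (m + 1))
    have f1 : (ω * η) ^ q = ζ m ^ p := by rw [mul_pow, hω, hη, one_mul]
    have f2 : (ω * η) ^ q ^ (m + 1 + 1) = 1 := by
      rw [pow_succ', pow_mul, f1, ← pow_mul, mul_comm, pow_mul, z1 m le_rfl, one_pow]
    have n2 : ‖η‖ = 1 := by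
      have := norm_root (pow_pos hq _) f2
      rwa [norm_mul, norm_root hq hω, one_mul] at this
    have e4 : ‖x' (m + 1) ^ q - (η * x (m + 1)) ^ q‖ ≤ 1 + 2 * |Ca| := by
      have e : x' (m + 1) ^ q - (η * x (m + 1)) ^ q =
          x' m ^ p - ζ m ^ p * x m ^ p + (b - ζ m ^ p * a) := by
        rw [mul_pow, hη, ← hx m (by omega), ← hx' m (by omega)]; ring
      have h1 := norm_add_le (x' m ^ p - ζ m ^ p * x m ^ p) (b - ζ m ^ p * a)
      have h2 := norm_sub_le b (ζ m ^ p * a)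
      rw [norm_mul, norm_pow, n1, one_pow, one_mul] at h2
      rw [e]
      linarith [le_abs_self Ca]
    have e5 : ‖x' (m + 1) - ω * η * x (m + 1)‖ * ‖x (m + 1)‖ ^ (q - 1) ≤ C := by
      rw [← hK, norm_mul, n2, one_mul, ← mul_assoc] at e3
      calc _ ≤ ‖x' (m + 1) - ω * η * x (m + 1)‖ * max ‖x' (m + 1)‖ ‖x (m + 1)‖ ^ (q - 1) := by
            gcongr; exact le_max_right _ _
        _ ≤ K * ‖x' (m + 1) ^ q - (η * x (m + 1)) ^ q‖ := e3
        _ ≤ C := by rw [hC]; gcongr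
    refine ⟨Function.update ζ (m + 1) (ω * η), fun i hi => ?_, fun i hi => ?_, fun i hi => ?_⟩
    · rcases hi.eq_or_lt with rfl | hi
      · rwa [Function.update_self]
      · rw [Function.update_of_ne hi.ne]; exact z1 i (by omega)
    · rw [Function.update_of_ne hi.ne]
      rcases (Nat.lt_succ_iff.1 hi).eq_or_lt with rfl | hi'
      · rwa [Function.update_self]
      · rw [Function.update_of_ne (by omega)]; exact z2 i hi'
    · rcases hi.eq_or_lt with rfl | hi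
      · rwa [Function.update_self]
      · rw [Function.update_of_ne hi.ne]; exact z3 i (by omega)

theorem big_exp {p q i : ℕ} (hpq : p < q) {C₀ C : ℝ} (h0 : 1 ≤ C₀) (hC : 2 * C₀ * q ^ 6 ≤ C) :
    2 * C₀ * ((p * q ^ (i + 1) : ℕ) : ℝ) ^ 3 < Real.exp (C * ((i : ℝ) + 1)) := by
  have hq : (1 : ℝ) ≤ q := by exact_mod_cast (show 1 ≤ q by omega)
  have h1 : (p : ℝ) ≤ q ^ (i + 1) :=
    (show (p : ℝ) ≤ q by exact_mod_cast hpq.le).trans (le_self_pow₀ hq (by omega))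
  have h2 : 2 * C₀ ≤ (2 * C₀) ^ (i + 1) := le_self_pow₀ (by linarith) (by omega)
  have h3 : Real.exp (C * ((i : ℝ) + 1)) = Real.exp C ^ (i + 1) := by
    rw [← Real.exp_nat_mul, mul_comm]; push_cast; rfl
  rw [h3]
  calc 2 * C₀ * ((p * q ^ (i + 1) : ℕ) : ℝ) ^ 3
      ≤ (2 * C₀) ^ (i + 1) * ((q : ℝ) ^ (i + 1) * q ^ (i + 1)) ^ 3 := by
        push_cast; gcongr
    _ = (2 * C₀ * q ^ 6) ^ (i + 1) := by rw [mul_pow (2 * C₀)]; ring
    _ < Real.exp C ^ (i + 1) := by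
        refine pow_lt_pow_left₀ ?_ (by positivity) (by omega)
        linarith [Real.add_one_le_exp C]

theorem window : WdStmt := by
  intro p q Ca hp hpq hco
  have hq : 0 < q := by omega
  have hp0 : 0 < p := by omega
  obtain ⟨A, C₀, hA, hC₀, hW⟩ := w2 p q Ca hp hpq hco
  obtain ⟨C₁, hC₁⟩ : ∃ C₁ : ℝ, C₁ = p * 2 ^ p * C₀ := ⟨_, rfl⟩
  have k1 : 0 ≤ 2 * C₁ * p ^ 3 := by rw [hC₁]; positivity
  have k2 : 0 ≤ 2 * C₀ * q ^ 6 := by positivity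
  have k3 := abs_nonneg (Real.log (1 + Ca))
  have k4 := le_abs_self (Real.log (1 + Ca))
  obtain ⟨C, hC⟩ : ∃ C : ℝ, C = A + C₀ + |Real.log (1 + Ca)| + 2 * C₀ * q ^ 6 + 2 * C₁ * p ^ 3 :=
    ⟨_, rfl⟩
  refine ⟨A, C, hA, by linarith, ?_⟩
  intro F _ _ _ hF a b n x x' ha hb hx hx' h0 hn
  obtain ⟨ζ, hζ⟩ := hW F hF a b n x x' ha hb hx hx' h0 hn
  refine ⟨ζ, Ratio.mono hζ (by linarith), ?_⟩
  intro i hi1 hin z z' ω ω' hz hz' g0 o1 o2 o3 e1 e2 hi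
  obtain ⟨k, rfl⟩ : ∃ k, i = k + 1 := ⟨i - 1, by omega⟩
  rw [Nat.add_sub_cancel]
  have n1 := norm_root hp0 o1
  have n2 := norm_root hp0 o2
  have l1 : C ≤ lp (x (k + 1)) := by
    refine le_trans ?_ hi
    have : (0 : ℝ) ≤ ((k + 1 : ℕ) : ℝ) := Nat.cast_nonneg _
    nlinarith
  have l2 : lp (z (k + 1)) = lp (x (k + 1)) := by rw [e1, lp_unit_mul n1]
  have l3 : ‖z (k + 1)‖ = ‖x (k + 1)‖ := by rw [e1, norm_mul, n1, one_mul]
  have l4 : C ≤ ‖x (k + 1)‖ := l1.trans (lp_le_norm (by linarith))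
  obtain ⟨ξ, hξ⟩ := hW F hF a b (k + 1) z z' ha hb hz hz' g0 (by linarith)
  have r1 := hζ.1 (k + 1) hin
  have r2 := hξ.1 (k + 1) le_rfl
  have key : ω' * ζ (k + 1) = ξ (k + 1) * ω := by
    by_contra hne
    have hM : 0 < p * q ^ (k + 1 + 1) := by positivity
    have s := sep' hF hM
      (by rw [mul_pow, pow_mul, o2, one_pow, mul_comm p, pow_mul, r1, one_pow, one_mul])
      (by rw [mul_pow, pow_mul ω, o1, one_pow, mul_comm p, pow_mul, r2, one_pow, one_mul]) hne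
    have t1 := hζ.2.2 (k + 1) hin
    have t2 := hξ.2.2 (k + 1) le_rfl
    rw [l3, e1, e2] at t2
    have t3 : ‖ω' * ζ (k + 1) - ξ (k + 1) * ω‖ * ‖x (k + 1)‖ ≤
        ‖ω' * x' (k + 1) - ξ (k + 1) * (ω * x (k + 1))‖ +
          ‖x' (k + 1) - ζ (k + 1) * x (k + 1)‖ := by
      have := norm_sub_le (ω' * x' (k + 1) - ξ (k + 1) * (ω * x (k + 1)))
        (ω' * (x' (k + 1) - ζ (k + 1) * x (k + 1)))
      rw [norm_mul, n2, one_mul] at this
      rwa [← norm_mul, show (ω' * ζ (k + 1) - ξ (k + 1) * ω) * x (k + 1) =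
        ω' * x' (k + 1) - ξ (k + 1) * (ω * x (k + 1)) - ω' * (x' (k + 1) - ζ (k + 1) * x (k + 1))
        by ring]
    have t4 : 1 ≤ ‖x (k + 1)‖ ^ (q - 1) := one_le_pow₀ (by linarith)
    have t5 : ‖ω' * ζ (k + 1) - ξ (k + 1) * ω‖ * ‖x (k + 1)‖ ≤ 2 * C₀ := by
      nlinarith [norm_nonneg (ω' * x' (k + 1) - ξ (k + 1) * (ω * x (k + 1))),
        norm_nonneg (x' (k + 1) - ζ (k + 1) * x (k + 1))]
    have t6 := big_exp (i := k + 1) hpq hC₀ (C := C) (by linarith)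
    have t7 : Real.exp (C * (((k + 1 : ℕ) : ℝ) + 1)) ≤ ‖x (k + 1)‖ := by
      rw [norm_eq_exp_lp (x := x (k + 1)) (by linarith)]
      exact Real.exp_le_exp.2 hi
    have hM' : (0 : ℝ) < ((p * q ^ (k + 1 + 1) : ℕ) : ℝ) ^ 3 := by positivity
    generalize ((p * q ^ (k + 1 + 1) : ℕ) : ℝ) ^ 3 = M at *
    rw [div_le_iff₀ hM'] at s
    nlinarith [norm_nonneg (x (k + 1))]
  have z0 : ζ (k + 1) ≠ 0 := by
    intro h; rw [h, zero_pow (by positivity)] at r1; exact zero_ne_one r1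
  have w0 : ω ≠ 0 := by
    intro h; rw [h, norm_zero] at n1; exact zero_ne_one n1
  have o4 : ω' = ω := by
    refine (div_eq_one_iff_eq w0).1 (eq_one_of_coprime (hco.pow_right (k + 1 + 1)) ?_ ?_)
    · rw [div_pow, o1, o2, div_one]
    · rw [(div_eq_div_iff w0 z0).2 key, div_pow, r1, r2, div_one]
  subst o4
  have o5 : ζ (k + 1) = ξ (k + 1) := mul_left_cancel₀ w0 (key.trans (mul_comm _ _))
  have o6 : ξ k ^ p = ζ k ^ p := by
    rw [← hξ.2.1 k (by omega), ← hζ.2.1 k (by omega), o5]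
  have o7 : ω' ^ q ≠ 1 := fun h => (or_self_iff.1 o3) (eq_one_of_coprime hco o1 h)
  have s := sep hF hp0 (ζ := ω' ^ q) (by rw [← pow_mul, mul_comm, pow_mul, o1, one_pow]) o7
  have m1 : ‖x (k + 1)‖ ≤ ‖x k‖ := by
    have := lp_back hp0 hpq ha (hx k (by omega)) (by linarith)
    exact norm_le_of_lp (by linarith) this
  have m2 : ‖x (k + 1)‖ ≤ ‖z k‖ := by
    have := lp_back hp0 hpq ha (hz k (by omega)) (by linarith)
    exact l3 ▸ norm_le_of_lp (by linarith) this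
  have u1 := pow_err hp0 hpq (norm_root (pow_pos hq _) (hζ.1 k (by omega))) (hζ.2.2 k (by omega))
    (by linarith) (by linarith)
  have u2 := pow_err hp0 hpq (norm_root (pow_pos hq _) (hξ.1 k (by omega))) (hξ.2.2 k (by omega))
    (by linarith) (by linarith)
  rw [← hC₁] at u1 u2
  rw [o6] at u2
  have v1 : (ω' ^ q - 1) * (b - ζ k ^ p * a) =
      z' k ^ p - ζ k ^ p * z k ^ p - ω' ^ q * (x' k ^ p - ζ k ^ p * x k ^ p) := by
    have a1 := hx k (by omega)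
    have a2 := hx' k (by omega)
    have a3 := hz k (by omega)
    have a4 := hz' k (by omega)
    rw [e1, mul_pow] at a3
    rw [e2, mul_pow] at a4
    linear_combination ω' ^ q * a2 - ω' ^ q * ζ k ^ p * a1 - a4 + ζ k ^ p * a3
  have v2 : ‖ω' ^ q - 1‖ * ‖b - ζ k ^ p * a‖ ≤
      ‖z' k ^ p - ζ k ^ p * z k ^ p‖ + ‖x' k ^ p - ζ k ^ p * x k ^ p‖ := by
    rw [← norm_mul, v1]
    refine (norm_sub_le _ _).trans ?_
    rw [norm_mul, norm_pow, n1, one_pow, one_mul]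
  have v3 : ‖ω' ^ q - 1‖ * (‖b - ζ k ^ p * a‖ * ‖x (k + 1)‖) ≤ 2 * C₁ := by
    have b1 := mul_le_mul_of_nonneg_left m1 (norm_nonneg (x' k ^ p - ζ k ^ p * x k ^ p))
    have b2 := mul_le_mul_of_nonneg_left m2 (norm_nonneg (z' k ^ p - ζ k ^ p * z k ^ p))
    have b3 := mul_le_mul_of_nonneg_right v2 (norm_nonneg (x (k + 1)))
    nlinarith
  have hp3 : (0 : ℝ) < (p : ℝ) ^ 3 := by positivity
  rw [div_le_iff₀ hp3] at s
  have v4 : 0 ≤ ‖b - ζ k ^ p * a‖ * ‖x (k + 1)‖ := by positivity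
  nlinarith

/-- The direction of a complex number. -/
noncomputable def dir (z : ℂ) : ℂ := z / (‖z‖ : ℝ)

theorem norm_dir {z : ℂ} (h : z ≠ 0) : ‖dir z‖ = 1 := by
  rw [dir, norm_div, Complex.norm_real, norm_norm, div_self (norm_ne_zero_iff.2 h)]

theorem dir_mul_norm (z : ℂ) : dir z * (‖z‖ : ℝ) = z := by
  by_cases h : z = 0
  · simp [h]
  · exact div_mul_cancel₀ _ (by exact_mod_cast norm_ne_zero_iff.2 h)

theorem dir_mul (z w : ℂ) : dir (z * w) = dir z * dir w := by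
  rw [dir, dir, dir, norm_mul, Complex.ofReal_mul, mul_div_mul_comm]

theorem dir_pow (z : ℂ) (n : ℕ) : dir (z ^ n) = dir z ^ n := by
  rw [dir, dir, norm_pow, Complex.ofReal_pow, div_pow]

theorem dir_sub (z : ℂ) {w : ℂ} (h : w ≠ 0) : ‖dir z - dir w‖ * ‖z‖ ≤ 2 * ‖z - w‖ := by
  have e : (dir z - dir w) * (‖z‖ : ℝ) = z - w + dir w * ((‖w‖ - ‖z‖ : ℝ) : ℂ) := by
    have h1 := dir_mul_norm z
    have h2 := dir_mul_norm w
    push_cast
    linear_combination h1 - h2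
  have h1 := norm_add_le (z - w) (dir w * ((‖w‖ - ‖z‖ : ℝ) : ℂ))
  rw [← e, norm_mul, norm_mul, norm_dir h, one_mul, Complex.norm_real, Complex.norm_real,
    norm_norm, Real.norm_eq_abs] at h1
  have h2 := abs_norm_sub_norm_le w z
  rw [norm_sub_rev] at h2
  linarith

theorem dir_sq {z : ℂ} (h : z ≠ 0) : ‖dir z ^ 2 + 1‖ * ‖z‖ = 2 * |z.re| := by
  have h0 : 0 < ‖z‖ := norm_pos_iff.2 h
  have e : (dir z ^ 2 + 1) * (‖z‖ : ℝ) ^ 2 = z * ((2 * z.re : ℝ) : ℂ) := by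
    have h1 := dir_mul_norm z
    have h2 := Complex.mul_conj' z
    have h3 := Complex.add_conj z
    linear_combination (dir z * (‖z‖ : ℝ) + z) * h1 - h2 + z * h3
  have h1 := congrArg norm e
  rw [norm_mul, norm_mul, norm_pow, Complex.norm_real, Complex.norm_real, norm_norm,
    Real.norm_eq_abs, abs_mul, abs_two] at h1
  refine mul_left_cancel₀ h0.ne' ?_
  linear_combination h1

theorem re_eq (Y a : ℂ) {ω : ℂ} (h : ‖ω‖ = 1) :
    ‖ω * Y - a‖ ^ 2 - ‖Y - a‖ ^ 2 = 2 * (Y * ((starRingEnd ℂ) a * (1 - ω))).re := by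
  rw [Complex.sq_norm, Complex.sq_norm, Complex.normSq_sub, Complex.normSq_sub,
    Complex.normSq_mul, ← Complex.sq_norm ω, h,
    show Y * ((starRingEnd ℂ) a * (1 - ω)) = Y * (starRingEnd ℂ) a - ω * Y * (starRingEnd ℂ) a by
      ring, Complex.sub_re]
  ring

theorem exists_expo {p q : ℕ} (hq : 0 < q) (h : p.Coprime q) :
    ∃ k j : ℕ, 0 < k ∧ (q * k).Coprime p ∧ p * k = q * 2 * j := by
  rcases Nat.even_or_odd p with ⟨j, hj⟩ | hodd
  · exact ⟨q, j, hq, Nat.Coprime.mul_left h.symm h.symm, by rw [hj]; ring⟩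
  · exact ⟨2 * q, p, by omega, Nat.Coprime.mul_left h.symm
      (Nat.Coprime.mul_left (Nat.coprime_two_left.2 hodd) h.symm), by ring⟩

theorem qcon : QConStmt := by
  intro p q a C₀ hp hpq hco ha
  have hq : 0 < q := by omega
  have hp0 : 0 < p := by omega
  obtain ⟨k, j, hk, hE, hkj⟩ := exists_expo hq hco
  have a0 : 0 < ‖a‖ := norm_pos_iff.2 ha
  obtain ⟨C₁, hC₁⟩ : ∃ C₁ : ℝ, C₁ = p * 2 ^ p * |C₀| := ⟨_, rfl⟩
  obtain ⟨C₂, hC₂⟩ : ∃ C₂ : ℝ, C₂ = 4 * C₁ * p ^ 3 / ‖a‖ := ⟨_, rfl⟩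
  have k0 := abs_nonneg C₀
  have k1 : 0 ≤ C₁ := by rw [hC₁]; positivity
  have k2 : 0 ≤ C₂ := by rw [hC₂]; positivity
  have k3 := log_one_add_nonneg a0.le
  have k4 : 0 ≤ (k : ℝ) * (2 * ‖a‖) := by positivity
  have k5 : 0 ≤ (j : ℝ) * C₂ := by positivity
  obtain ⟨C, hC⟩ : ∃ C : ℝ,
      C = 1 + |C₀| + ‖a‖ + Real.log (1 + ‖a‖) + k * (2 * ‖a‖) + j * C₂ := ⟨_, rfl⟩
  refine ⟨q * k, by positivity, hE, C, 1, one_pos, fun ω o1 o2 => ?_⟩
  have n1 : ‖ω ^ q‖ = 1 := by rw [norm_pow, norm_root hp0 o1, one_pow]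
  have s := sep goodF_complex hp0 (ζ := ω ^ q) (by rw [← pow_mul, mul_comm, pow_mul, o1, one_pow])
    fun h => o2 (eq_one_of_coprime hco o1 h)
  have hp3 : (0 : ℝ) < (p : ℝ) ^ 3 := by positivity
  rw [div_le_iff₀ hp3] at s
  obtain ⟨v, hv⟩ : ∃ v, v = (starRingEnd ℂ) a * (1 - ω ^ q) := ⟨_, rfl⟩
  have nv : ‖a‖ ≤ ‖v‖ * p ^ 3 := by
    rw [hv, norm_mul, Complex.norm_conj, norm_sub_rev, mul_assoc]
    exact le_mul_of_one_le_right a0.le s
  have v0 : v ≠ 0 := by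
    rintro rfl
    rw [norm_zero, zero_mul] at nv
    linarith
  have d0 := norm_dir v0
  have d1 : dir v ≠ 0 := by intro h; rw [h, norm_zero] at d0; exact zero_ne_one d0
  have f0 : ‖-(dir v)⁻¹ ^ 2‖ = 1 := by rw [norm_neg, norm_pow, norm_inv, d0, inv_one, one_pow]
  refine ⟨(-(dir v)⁻¹ ^ 2) ^ j, by rw [norm_pow, f0, one_pow], fun t y w w' e1 e2 e3 h1 h2 => ?_⟩
  have l1 := lp_back hp0 hpq le_rfl e1 (by linarith)
  have l2 := lp_back hp0 hpq le_rfl e2 (by linarith)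
  have t0 : 0 < lp t := by linarith
  have t1 : C ≤ ‖t‖ := h2.trans (lp_le_norm t0)
  have t2 : ‖t‖ ≤ ‖y‖ := norm_le_of_lp (by linarith) l1
  have t3 : ‖y‖ ≤ ‖w‖ := norm_le_of_lp (by linarith) l2
  have t4 : ‖y‖ ≤ ‖y ^ q‖ := by rw [norm_pow]; exact le_self_pow₀ (by linarith) hq.ne'
  have t5 : ‖t‖ ≤ ‖t ^ q‖ := by rw [norm_pow]; exact le_self_pow₀ (by linarith) hq.ne'
  have y0 : y ≠ 0 := norm_pos_iff.1 (by linarith)
  have u0 : t ≠ 0 := norm_pos_iff.1 (by linarith)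
  have g1 := pow_err hp0 hpq (X := ‖w‖) (X' := ‖w'‖) (ζ := 1) (C := |C₀|) norm_one
    (by rw [one_mul, norm_norm, Real.norm_eq_abs]; exact h1.trans (le_abs_self _))
    (by rw [norm_norm]; linarith) (by rw [norm_norm]; linarith)
  rw [one_pow, one_mul, norm_norm, Real.norm_eq_abs, ← hC₁, ← norm_pow, ← norm_pow,
    show w ^ p = y ^ q - a by rw [← e2]; ring,
    show w' ^ p = ω ^ q * y ^ q - a by rw [← mul_pow, ← e3]; ring] at g1
  have g2 := re_eq (y ^ q) a n1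
  rw [← hv] at g2
  have Y0 : y ^ q ≠ 0 := pow_ne_zero _ y0
  have Y1 : 0 < ‖y ^ q‖ := norm_pos_iff.2 Y0
  have g3 : ‖ω ^ q * y ^ q - a‖ + ‖y ^ q - a‖ ≤ 4 * ‖y ^ q‖ := by
    have b1 := norm_sub_le (ω ^ q * y ^ q) a
    have b2 := norm_sub_le (y ^ q) a
    rw [norm_mul, n1, one_mul] at b1
    linarith
  have g4 : 2 * |(y ^ q * v).re| * ‖w‖ ≤ 4 * ‖y ^ q‖ * C₁ := by
    rw [← abs_two, ← abs_mul, ← g2, sq_sub_sq, abs_mul, abs_of_nonneg (by positivity), mul_assoc]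
    gcongr
  have g5 : ‖dir (y ^ q * v) ^ 2 + 1‖ * ‖t‖ ≤ C₂ := by
    rw [← dir_sq (mul_ne_zero Y0 v0), norm_mul] at g4
    rw [hC₂, le_div_iff₀ a0]
    have b0 := norm_nonneg (dir (y ^ q * v) ^ 2 + 1)
    generalize ‖dir (y ^ q * v) ^ 2 + 1‖ = D at *
    have b1 : D * ‖v‖ * ‖w‖ ≤ 4 * C₁ := le_of_mul_le_mul_left (by linarith) Y1
    calc D * ‖t‖ * ‖a‖ ≤ D * ‖w‖ * (‖v‖ * p ^ 3) := by gcongr; linarith
      _ = D * ‖v‖ * ‖w‖ * p ^ 3 := by ring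
      _ ≤ _ := by gcongr
  have g6 : ‖dir y ^ (q * 2) - -(dir v)⁻¹ ^ 2‖ = ‖dir (y ^ q * v) ^ 2 + 1‖ := by
    rw [dir_mul, dir_pow, show (dir y ^ q * dir v) ^ 2 + 1 =
      (dir y ^ (q * 2) - -(dir v)⁻¹ ^ 2) * dir v ^ 2 by rw [pow_mul]; field_simp; ring,
      norm_mul, norm_pow, d0, one_pow, mul_one]
  have dy := norm_dir y0
  have dt := norm_dir u0
  have g7 : ‖dir t ^ q - dir y ^ p‖ * ‖t‖ ≤ 2 * ‖a‖ := by
    have := dir_sub (t ^ q) (pow_ne_zero p y0)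
    rw [dir_pow, dir_pow, show t ^ q - y ^ p = a by rw [← e1]; ring] at this
    exact (mul_le_mul_of_nonneg_left t5 (norm_nonneg _)).trans this
  have g8 := norm_pow_sub_one (u := dir t ^ q) (v := dir y ^ p) (by rw [norm_pow, dt, one_pow])
    (by rw [norm_pow, dy, one_pow]) k
  have g9 := norm_pow_sub_one (u := dir y ^ (q * 2)) (by rw [norm_pow, dy, one_pow]) f0 j
  rw [← pow_mul, ← pow_mul, hkj] at g8
  rw [← pow_mul, g6] at g9
  have g10 : ‖dir t ^ (q * k) - (-(dir v)⁻¹ ^ 2) ^ j‖ * ‖t‖ ≤ C := by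
    have b1 := norm_sub_le_norm_sub_add_norm_sub (dir t ^ (q * k)) (dir y ^ (q * 2 * j))
      ((-(dir v)⁻¹ ^ 2) ^ j)
    have b2 := mul_le_mul_of_nonneg_left g7 (Nat.cast_nonneg (α := ℝ) k)
    have b3 := mul_le_mul_of_nonneg_left g5 (Nat.cast_nonneg (α := ℝ) j)
    have b4 := mul_le_mul_of_nonneg_right (b1.trans (add_le_add g8 g9)) (norm_nonneg t)
    nlinarith
  have g11 : t ^ (q * k) - (-(dir v)⁻¹ ^ 2) ^ j * (‖t ^ (q * k)‖ : ℝ) =
      (dir t ^ (q * k) - (-(dir v)⁻¹ ^ 2) ^ j) * (‖t ^ (q * k)‖ : ℝ) := by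
    rw [sub_mul, ← dir_pow, dir_mul_norm]
  rw [g11, norm_mul, Complex.norm_real, norm_norm, one_mul, Real.exp_neg, ← norm_eq_exp_lp t0,
    mul_right_comm, ← div_eq_mul_inv]
  gcongr
  rwa [le_div_iff₀ (by linarith)]

end Pool.Agent.MP_09973c_nt.H41
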